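import Mathlib

/-! Knot diagrams in Morse position and their Alexander polynomial.

A diagram is read from bottom to top as a word of elementary layers.  Between two layers the
diagram meets a horizontal line (a level) in finitely many points, numbered `0, 1, ...` from the
left.  Every planar link diagram is isotopic to one of this form. -/

namespace Pool.Agent.MP_bc14f3_gt

open Polynomial

/-- One layer of a diagram: a local minimum creating strands `i, i+1`; a local maximum joining
strands `i, i+1`; a crossing of strands `i, i+1`, where `b = true` means that the strand running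
from lower right to upper left is the over-strand. -/
inductive Move
  | cup (i : ℕ)
  | cap (i : ℕ)
  | cross (i : ℕ) (b : Bool)

/-- Number of strands above the layer, given the number below. -/
def Move.top : Move → ℕ → ℕ
  | .cup _, n => n + 2
  | .cap _, n => n - 2
  | .cross _ _, n => n

/-- The layer can be put on top of `n` strands. -/
def Move.Fits : Move → ℕ → Prop
  | .cup i, n => i ≤ n
  | .cap i, n => i + 2 ≤ n
  | .cross i _, n => i + 2 ≤ n

/-- The strand in position `j` below the layer takes no part in the cup, cap or crossing and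
is in position `j'` above it. -/
def Move.Thru : Move → ℕ → ℕ → Prop
  | .cup i, j, j' => (j < i ∧ j' = j) ∨ (i ≤ j ∧ j' = j + 2)
  | .cap i, j, j' => (j < i ∧ j' = j) ∨ (i + 2 ≤ j ∧ j = j' + 2)
  | .cross i _, j, j' => j ≠ i ∧ j ≠ i + 1 ∧ j' = j

/-- Number of strands at level `k` (above the first `k` layers). -/
def width (w : List Move) (k : ℕ) : ℕ := (w.take k).foldl (fun n m => m.top n) 0

/-- The word is a closed diagram: every layer fits and no strand is left at the top. -/
def Closed (w : List Move) : Prop :=
  (∀ k (m : Move), w[k]? = some m → m.Fits (width w k)) ∧ width w w.length = 0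

/-- The points of the diagram on the levels: (level, position). -/
abbrev Pt (w : List Move) := (k : Fin (w.length + 1)) × Fin (width w k)

variable {w : List Move}

/-- `p` is joined to `q`, one level higher, by a strand without crossing. -/
def Thru (p q : Pt w) : Prop :=
  ∃ m : Move, w[(p.1 : ℕ)]? = some m ∧ (q.1 : ℕ) = p.1 + 1 ∧ m.Thru p.2 q.2

/-- `p` and its right neighbour `q` are joined by a cap just above or a cup just below. -/
def Turn (p q : Pt w) : Prop :=
  (q.1 : ℕ) = p.1 ∧ (q.2 : ℕ) = p.2 + 1 ∧
    (w[(p.1 : ℕ)]? = some (.cap p.2) ∨ ∃ k, (p.1 : ℕ) = k + 1 ∧ w[k]? = some (.cup p.2))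

/-- A crossing of kind `b`, with over-strand from `a` (below) to `a'` (above) and under-strand
from `u` (below) to `u'` (above). -/
def Cross (b : Bool) (a a' u u' : Pt w) : Prop :=
  ∃ k i, w[k]? = some (.cross i b) ∧ (a.1 : ℕ) = k ∧ (u.1 : ℕ) = k ∧ (a'.1 : ℕ) = k + 1 ∧
    (u'.1 : ℕ) = k + 1 ∧ (a.2 : ℕ) = (if b then i + 1 else i) ∧ (u'.2 : ℕ) = a.2 ∧
    (u.2 : ℕ) = (if b then i else i + 1) ∧ (a'.2 : ℕ) = u.2

/-- `p` and `q` are consecutive points of the link. -/
def Join (p q : Pt w) : Prop :=
  Thru p q ∨ Turn p q ∨ ∃ b x y, Cross b p q x y ∨ Cross b x y p q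

/-- A closed diagram with exactly one component. -/
def IsKnot (w : List Move) : Prop :=
  Closed w ∧ Nonempty (Pt w) ∧ ∀ p q : Pt w, Relation.EqvGen Join p q

/-- `h p` tells whether the first crossing met when travelling upwards from `p` is passed over;
the first one met travelling downwards is then passed the other way. -/
def IsAlternating (w : List Move) : Prop :=
  ∃ h : Pt w → Bool, (∀ p q, Thru p q → h p = h q) ∧ (∀ p q, Turn p q → h p ≠ h q) ∧
    ∀ b a a' u u', Cross b a a' u u' → h a = true ∧ h a' = false ∧ h u = false ∧ h u' = true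

/-- An orientation: `o p = true` when the link points upwards at `p`. -/
def IsOrientation (o : Pt w → Bool) : Prop :=
  (∀ p q, Thru p q → o p = o q) ∧ (∀ p q, Turn p q → o p ≠ o q) ∧
    ∀ b a a' u u', Cross b a a' u u' → o a = o a' ∧ o u = o u'

/-- The Wirtinger relations `c = a b a⁻¹` on the generators `Pt w`: `c = b` (taking `a = b`) along
an arc, and at a crossing `a` on the over-strand, `b` on its left and `c` on its right. -/
def Rel (o : Pt w → Bool) (a b c : Pt w) : Prop :=
  (a = b ∧ (Thru b c ∨ Turn b c)) ∨
    ∃ s a' u u', Cross s a a' u u' ∧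
      ((b = a ∧ c = a') ∨ (s = o a ∧ b = u ∧ c = u') ∨ (s ≠ o a ∧ b = u' ∧ c = u))

/-- The rows of the Alexander matrix. -/
def Row (o : Pt w → Bool) : Type := {r : Pt w × Pt w × Pt w // Rel o r.1 r.2.1 r.2.2}

/-- The Alexander matrix (abelianised Fox derivatives): the row of `c = a b a⁻¹` is
`c - t b - (1 - t) a`. -/
noncomputable def entry (o : Pt w → Bool) (r : Row o) (p : Pt w) : ℤ[X] :=
  (if p = r.1.2.2 then 1 else 0) - X * (if p = r.1.2.1 then 1 else 0) -
    (1 - X) * (if p = r.1.1 then 1 else 0)

/-- The minor of size `N - 1` (`N` the number of generators) without column `p`, on rows `f`. -/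
noncomputable def minor (o : Pt w → Bool) (p : Pt w) (f : {q // q ≠ p} → Row o) : ℤ[X] :=
  (Matrix.of fun i j : {q // q ≠ p} => entry o (f i) j).det

/-- `D` is the Alexander polynomial: a greatest common divisor in `ℤ[t]` of all minors of size
`N - 1` of the Alexander matrix. -/
def IsAlexander (o : Pt w → Bool) (D : ℤ[X]) : Prop :=
  ∀ d, d ∣ D ↔ ∀ p f, d ∣ minor o p f

end Pool.Agent.MP_bc14f3_gt
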